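import Mathlib
import Pool.Agent.Q1.M6e.Wn.Fine
import Pool.Agent.H20.Q1.DNum

set_option autoImplicit false
open Finset

/-!
# Natural responses for an arbitrary class of tied environments

`nrP` : the response of one wall of weight `1/4` is at most `C M / R`. `mixP` : the natural responses are
additive up to `C M (1 / R)^(1 + c)`.
-/

namespace Pool.Agent.Q1.M6e.Wn

open Pool.Agent.H75.Perc Pool.Agent.H75.TwoArm Pool.Agent.H75.Four Pool.Agent.H49.Perc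
open Pool.Agent.H69.Q1 Pool.Agent.H39.Q1 Pool.Agent.H25.Q1.Add
open Pool.Agent.H99.NC Pool.Agent.H60.Q1 Pool.Agent.H20.Q1 Pool.Agent.Q1
open Pool.Agent.H44.FM.AsmW (Walls TW asm_walls resp_wall add_walls)

/-- **The natural response of one wall.** -/
theorem nrP {P : ℝ → ℕ → CaseW → Prop} (hF : FineP P) :
    ∀ η : ℝ, 0 < η → ∃ (C : ℝ) (R0 : ℕ), 0 < C ∧ ∀ R : ℕ, R0 ≤ R → ∀ x : CaseW, P η R x →
    ∀ M : ℝ, x.d.HV x.Cs x.a M → ∀ w : x.κ, ‖x.tot (wS {w}) - x.tot0‖ ≤ C * M / R := by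
  intro η hη
  obtain ⟨N0, C1, c1, K1, ζ0, R1, hC1, hc1, hK1, hζ0, hFi⟩ := hF η hη
  obtain ⟨K, C, hK, hC, hres⟩ := resp_wall
  set ζ : ℝ := min ζ0 1 with hζd
  have hζ : 0 < ζ := lt_min hζ0 one_pos
  have hζ1 : ζ ≤ 1 := min_le_right _ _
  have hζ2 : ζ ≤ ζ0 := min_le_left _ _
  obtain ⟨a1, ha12, ha1K, -⟩ := exists_a0 (K := K1) (t := (1 - 1 / 4 : ℝ) ^ ((3 : ℝ) / 2)) hK1
    (by positivity) (t_le_one (by norm_num) (by norm_num))
  have ha1p : (0 : ℝ) < a1 := by exact_mod_cast (by omega : (0 : ℤ) < a1)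
  set D : ℝ := C1 * a1 ^ (1 + c1) + 2 * (C1 * (C * (2 / ζ) ^ 2) + C1 * a1) with hD
  have hD0 : 0 < D := by rw [hD]; positivity
  obtain ⟨R0, hR0⟩ := exists_nat_gt (max (R1 : ℝ) (2 * (max (R1 : ℝ) (max K (max a1 1)) + 1) / ζ))
  refine ⟨D, R0, hD0, ?_⟩
  intro R hR x hPx M hM w
  have hRr : (R0 : ℝ) ≤ R := by exact_mod_cast hR
  have b1 : (R1 : ℝ) < R := ((le_max_left _ _).trans_lt hR0).trans_le hRr
  have b2 : 2 * (max (R1 : ℝ) (max K (max a1 1)) + 1) / ζ < R :=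
    ((le_max_right _ _).trans_lt hR0).trans_le hRr
  rw [div_lt_iff₀ hζ] at b2
  have m1 : (R1 : ℝ) ≤ max (R1 : ℝ) (max K (max a1 1)) := le_max_left _ _
  have m2 : K ≤ max (R1 : ℝ) (max K (max a1 1)) := (le_max_left _ _).trans (le_max_right _ _)
  have m3 : (a1 : ℝ) ≤ max (R1 : ℝ) (max K (max a1 1)) :=
    (le_max_left _ _).trans ((le_max_right _ _).trans (le_max_right _ _))
  have m4 : (1 : ℝ) ≤ max (R1 : ℝ) (max K (max a1 1)) :=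
    (le_max_right _ _).trans ((le_max_right _ _).trans (le_max_right _ _))
  have hRpos : (0 : ℝ) < R := by
    have : (0 : ℝ) ≤ R1 := Nat.cast_nonneg _
    linarith
  set R' : ℤ := ⌊ζ * R⌋ with hR'
  have h1 : (R' : ℝ) ≤ ζ * R := Int.floor_le _
  have h2 : ζ * R < R' + 1 := Int.lt_floor_add_one _
  have h3 : ζ * R / 2 ≤ R' := by linarith
  have h4 : (R1 : ℤ) ≤ R' := by
    have : ((R1 : ℤ) : ℝ) ≤ R' := by push_cast; linarith
    exact_mod_cast this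
  have h5 : K ≤ R' := by linarith
  have h6 : a1 ≤ R' := by
    have : (a1 : ℝ) ≤ R' := by linarith
    exact_mod_cast this
  have hR'0 : (0 : ℝ) < R' := by linarith
  have hR1 : R1 ≤ R := by exact_mod_cast b1.le
  obtain ⟨-, hFi2⟩ := hFi R hR1 x hPx
  obtain ⟨FlT, Q, hFine⟩ := hFi2 R' h4 (h1.trans (mul_le_mul_of_nonneg_right hζ2 hRpos.le))
  have hM0 : 0 ≤ M := hM.nonneg
  have hz : ∀ j, (1 - 1 / 4 : ℝ) ^ ((3 : ℝ) / 2) * (a1 : ℝ) ≤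
      (1 - ‖wS ({w} : Finset x.κ) j‖) ^ ((3 : ℝ) / 2) * a1 := fun j =>
    mul_le_mul_of_nonneg_right (Real.rpow_le_rpow (by norm_num) (by linarith [norm_wS {w} j])
      (by norm_num)) ha1p.le
  have f1 := hFine.fst x.a M hM (wS {w}) a1 (fun j => (norm_wS _ j).trans_lt (by norm_num))
    (one_sub_wS {w}) ha12 h6 (fun j => ha1K.trans (hz j))
  have f2 := hFine.crn w (1 / 4) a1 le_rfl (by norm_num) ha12 h6 ha1K
  have key := hres x.d.X x.d.W x.d.Bb x.d.B x.d.TT x.Cs x.d.fm x.d.co x.d.Wl x.d.La x.d.b x.d.o x.a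
    x.d.rk x.d.wl x.d.fw x.d.ε x.d.δ FlT R' M _ _ (x.d.tot0 x.Cs x.a) Q w hFine.mul hFine.far
    hFine.wal hM (hFine.irr x.a) h5 f1 f2
  have e0 : x.tot (wS {w}) - x.tot0 =
      Tot x.d.X x.Cs x.a x.d.Bb x.d.TT x.d.fm x.d.co (Pool.Agent.H44.FM.AsmW.w4 x.d.wl {w}) -
        x.d.tot0 x.Cs x.a := rfl
  rw [e0]
  refine key.trans ?_
  -- numerics
  have n1 : ((a1 : ℝ) / R) ^ (1 + c1) ≤ a1 ^ (1 + c1) / R := by
    rw [Real.div_rpow ha1p.le hRpos.le]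
    refine div_le_div_of_nonneg_left (by positivity) hRpos ?_
    calc (R : ℝ) = (R : ℝ) ^ (1 : ℝ) := (Real.rpow_one _).symm
      _ ≤ (R : ℝ) ^ (1 + c1) := Real.rpow_le_rpow_of_exponent_le (by
          have : (0 : ℝ) ≤ R1 := Nat.cast_nonneg _
          have := mul_le_mul_of_nonneg_right hζ1 hRpos.le
          linarith) (by linarith)
  have n2 : ((R' : ℝ) / R) ^ c1 ≤ 1 := by
    refine Real.rpow_le_one (by positivity) ?_ hc1.le
    rw [div_le_one hRpos]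
    have := mul_le_mul_of_nonneg_right hζ1 hRpos.le
    linarith
  have n3 : ((FlT w).card : ℝ) * (C / (R' : ℝ) ^ 2) ≤ C1 * (C * (2 / ζ) ^ 2) / R := by
    have g1 : C / (R' : ℝ) ^ 2 ≤ C / (ζ * R / 2) ^ 2 :=
      div_le_div_of_nonneg_left hC.le (by positivity) (pow_le_pow_left₀ (by positivity) h3 2)
    refine (mul_le_mul (hFine.card w) g1 (by positivity) (by positivity)).trans (le_of_eq ?_)
    field_simp
  have n4 : C1 * ((a1 : ℝ) / R) * ((R' : ℝ) / R) ^ c1 ≤ C1 * a1 / R := by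
    refine (mul_le_mul_of_nonneg_left n2 (by positivity)).trans (le_of_eq ?_)
    ring
  have t1 := mul_le_mul_of_nonneg_left n1 (mul_nonneg hC1.le hM0)
  have t2 := mul_le_mul_of_nonneg_left (add_le_add n3 n4) (mul_nonneg (by norm_num : (0 : ℝ) ≤ 2) hM0)
  refine (add_le_add t1 t2).trans (le_of_eq ?_)
  rw [hD]
  field_simp

/-- **Additivity of the natural responses.** -/
theorem mixP {P : ℝ → ℕ → CaseW → Prop} (hF : FineP P) :
    ∀ η : ℝ, 0 < η → ∃ (C c : ℝ) (R0 : ℕ), 0 < C ∧ 0 < c ∧ ∀ R : ℕ, R0 ≤ R → ∀ x : CaseW, P η R x →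
    ∀ M : ℝ, x.d.HV x.Cs x.a M → ∀ S : Finset x.κ,
    ‖x.tot (wS S) - x.tot0 - ∑ w ∈ S, (x.tot (wS {w}) - x.tot0)‖ ≤
      C * M * (1 / (R : ℝ)) ^ (1 + c) := by
  intro η hη
  obtain ⟨N0, C1, c1, K1, ζ0, R1, hC1, hc1, hK1, hζ0, hFi⟩ := hF η hη
  obtain ⟨a1, ha12, ha1K, -⟩ := exists_a0 (K := K1) (t := (1 - 1 / 4 : ℝ) ^ ((3 : ℝ) / 2)) hK1
    (by positivity) (t_le_one (by norm_num) (by norm_num))
  have ha1p : (0 : ℝ) < a1 := by exact_mod_cast (by omega : (0 : ℤ) < a1)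
  set R' : ℤ := max (R1 : ℤ) a1 with hR'
  have h4 : (R1 : ℤ) ≤ R' := le_max_left _ _
  have h6 : a1 ≤ R' := le_max_right _ _
  have hR'0 : (0 : ℝ) < R' := by
    have : (a1 : ℝ) ≤ R' := by exact_mod_cast h6
    linarith
  set D : ℝ := C1 * a1 ^ (1 + c1) + N0 * (C1 * a1 ^ (1 + c1)) + 4 * (N0 * (C1 * a1 * R' ^ c1)) with hD
  have hD0 : 0 < D := by rw [hD]; positivity
  obtain ⟨R0, hR0⟩ := exists_nat_gt (max (R1 : ℝ) (R' / ζ0))
  refine ⟨D, c1, R0, hD0, hc1, ?_⟩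
  intro R hR x hPx M hM S
  have hRr : (R0 : ℝ) ≤ R := by exact_mod_cast hR
  have b1 : (R1 : ℝ) < R := ((le_max_left _ _).trans_lt hR0).trans_le hRr
  have b2 : R' / ζ0 < R := ((le_max_right _ _).trans_lt hR0).trans_le hRr
  rw [div_lt_iff₀ hζ0] at b2
  have hRpos : (0 : ℝ) < R := by
    have : (0 : ℝ) ≤ R1 := Nat.cast_nonneg _
    linarith
  have hR1 : R1 ≤ R := by exact_mod_cast b1.le
  obtain ⟨hcard, hFi2⟩ := hFi R hR1 x hPx
  obtain ⟨FlT, Q, hFine⟩ := hFi2 R' h4 (by linarith)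
  have hM0 : 0 ≤ M := hM.nonneg
  have hz : ∀ (T : Finset x.κ) j, (1 - 1 / 4 : ℝ) ^ ((3 : ℝ) / 2) * (a1 : ℝ) ≤
      (1 - ‖wS T j‖) ^ ((3 : ℝ) / 2) * a1 := fun T j =>
    mul_le_mul_of_nonneg_right (Real.rpow_le_rpow (by norm_num) (by linarith [norm_wS T j])
      (by norm_num)) ha1p.le
  have f1 : ∀ T : Finset x.κ, ‖x.d.tot x.Cs x.a (wS T) - x.d.tot0 x.Cs x.a - x.d.fst x.Cs x.a (wS T)‖ ≤
      C1 * M * ((a1 : ℝ) / R) ^ (1 + c1) := fun T =>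
    hFine.fst x.a M hM (wS T) a1 (fun j => (norm_wS _ j).trans_lt (by norm_num))
      (one_sub_wS T) ha12 h6 (fun j => ha1K.trans (hz T j))
  have f2 : ∀ w : x.κ, Ex hf x.d.B (fun ω => ∑ e ∈ TW x.d.TT x.d.wl w,
      crn x.d.TT x.d.fm x.d.co x.d.La x.d.b x.d.rk Q (FlT w) (1 / 4) e ω) ≤
      C1 * ((a1 : ℝ) / R) * ((R' : ℝ) / R) ^ c1 := fun w =>
    hFine.crn w (1 / 4) a1 le_rfl (by norm_num) ha12 h6 ha1K
  have f3 : Ex hf x.d.B (fun ω => ∑ e ∈ x.d.TT,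
      crn x.d.TT x.d.fm x.d.co x.d.La x.d.b x.d.rk Q (FlT (x.d.wl e)) (1 / 4) e ω) ≤
      N0 * (C1 * ((a1 : ℝ) / R) * ((R' : ℝ) / R) ^ c1) := by
    have e1 : (fun ω => ∑ e ∈ x.d.TT,
        crn x.d.TT x.d.fm x.d.co x.d.La x.d.b x.d.rk Q (FlT (x.d.wl e)) (1 / 4) e ω) =
        fun ω => ∑ w, ∑ e ∈ TW x.d.TT x.d.wl w,
          crn x.d.TT x.d.fm x.d.co x.d.La x.d.b x.d.rk Q (FlT w) (1 / 4) e ω := by
      funext ω
      rw [Pool.Agent.H44.FM.AsmW.sum_TW (TT := x.d.TT) (wl := x.d.wl)]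
      refine sum_congr rfl fun w _ => sum_congr rfl fun e he => ?_
      rw [(Pool.Agent.H44.FM.AsmW.mem_TW.1 he).2]
    rw [e1, Ex_sum]
    refine (sum_le_sum fun w _ => f2 w).trans ?_
    rw [sum_const, nsmul_eq_mul, card_univ]
    refine mul_le_mul_of_nonneg_right (by exact_mod_cast hcard) ?_
    positivity
  have key := add_walls (f0 := x.d.tot0 x.Cs x.a) hFine.wal hM (hFine.irr x.a) S (f1 S)
    (fun w => f1 {w}) f3
  have e0 : x.tot (wS S) - x.tot0 - ∑ w ∈ S, (x.tot (wS {w}) - x.tot0) =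
      Tot x.d.X x.Cs x.a x.d.Bb x.d.TT x.d.fm x.d.co (Pool.Agent.H44.FM.AsmW.w4 x.d.wl S) -
        x.d.tot0 x.Cs x.a - ∑ w ∈ S, (Tot x.d.X x.Cs x.a x.d.Bb x.d.TT x.d.fm x.d.co
          (Pool.Agent.H44.FM.AsmW.w4 x.d.wl {w}) - x.d.tot0 x.Cs x.a) := rfl
  rw [e0]
  refine key.trans ?_
  rw [sum_const, nsmul_eq_mul]
  have hS : (S.card : ℝ) ≤ N0 := by exact_mod_cast (card_le_univ S).trans hcard
  have hq : 0 < (1 / (R : ℝ)) := by positivity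
  have e1 : ((a1 : ℝ) / R) ^ (1 + c1) = a1 ^ (1 + c1) * (1 / (R : ℝ)) ^ (1 + c1) := by
    rw [div_eq_mul_one_div, Real.mul_rpow ha1p.le hq.le]
  have e2 : C1 * ((a1 : ℝ) / R) * ((R' : ℝ) / R) ^ c1 =
      C1 * a1 * R' ^ c1 * (1 / (R : ℝ)) ^ (1 + c1) := by
    rw [div_eq_mul_one_div (a1 : ℝ), div_eq_mul_one_div (R' : ℝ), Real.mul_rpow hR'0.le hq.le,
      Real.rpow_add hq, Real.rpow_one]
    ring
  rw [e1, e2]
  have hq2 : 0 < (1 / (R : ℝ)) ^ (1 + c1) := Real.rpow_pos_of_pos hq _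
  have t1 : (S.card : ℝ) * (C1 * M * (a1 ^ (1 + c1) * (1 / (R : ℝ)) ^ (1 + c1))) ≤
      N0 * (C1 * M * (a1 ^ (1 + c1) * (1 / (R : ℝ)) ^ (1 + c1))) :=
    mul_le_mul_of_nonneg_right hS (by positivity)
  refine (add_le_add (add_le_add le_rfl t1) le_rfl).trans (le_of_eq ?_)
  rw [hD]
  ring

end Pool.Agent.Q1.M6e.Wn
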