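import Mathlib
import Pool.Agent.Q1.M6e.Wn.LRP
import Pool.Agent.Q1.M6e.Wn.NRP

set_option autoImplicit false
open Finset

/-!
# The 45 degree rectangles as a class of tied environments; unions of classes
-/

namespace Pool.Agent.Q1.M6e.Wn

open Pool.Agent.H75.Perc Pool.Agent.H75.TwoArm Pool.Agent.H75.Four Pool.Agent.H49.Perc
open Pool.Agent.H69.Q1 Pool.Agent.H39.Q1 Pool.Agent.H25.Q1.Add
open Pool.Agent.H99.NC Pool.Agent.H60.Q1 Pool.Agent.H20.Q1 Pool.Agent.Q1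
open Pool.Agent.H33.Q1 Pool.Agent.H74.R45 Pool.Agent.H13.R45 Pool.Agent.H13.Q1
open Pool.Agent.H64.Q1 Pool.Agent.Q1.M6f.Glue Pool.Agent.H25.Q1.Close Pool.Agent.Q1.M6f
open Pool.Agent.H95.R45 (Sc PotJ)
open Pool.Agent.H44.FM.AsmW (Walls TW FlatWall)
open Pool.Agent.H53.FM (GHypX)

/-- the data of a 45 degree rectangle, one wall in each family -/
def toW (d : Dat) : DatW Bool Bool where
  X := d.X
  W := d.W
  Bb := d.Bb
  B := d.B
  TT := d.TT
  fm := d.fm
  co := id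
  Wl := d.Wl
  La := d.La
  b := d.b
  o := d.o
  rk := d.rk
  wl := d.fm
  fw := id
  ε := d.ε
  δ := d.δ

/-- a 45 degree rectangle as a case -/
noncomputable def case45 (d : Dat) (p q : ℤ × ℤ) : CaseW where
  ι := Bool
  κ := Bool
  d := toW d
  Cs := LCq p q
  a := Laq p q

/-- the class of the 45 degree rectangles -/
def P45 (η : ℝ) (R : ℕ) (x : CaseW) : Prop :=
  ∃ (w h : ℤ) (O : Out w h) (_ : Sc η R O) (top : Bool) (S : Finset (ℤ × ℤ)) (hS : S ⊆ RRJ w h top)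
    (p q : ℤ × ℤ), Inn w h (η * R) p ∧ Inn w h (η * R) q ∧
    x = case45 (datJ O (mE η R) (LE η R) top S hS) p q

lemma fineW_of_fine {C c K : ℝ} {R : ℕ} {R' : ℤ} {d : Dat} {Cs : Finset (ℤ × ℤ)}
    {FlT : Bool → Finset (ℤ × ℤ)} {Q : Finset (ℤ × ℤ) → ℤ × ℤ → Prop} (h : Fine C c K R R' d Cs FlT Q) :
    FineW C c K R R' (toW d) Cs FlT Q where
  mul := h.mul
  far := h.far
  wal :=
    { hfl := fun i => by
        have hf := h.fam i
        exact
          { sub := hf.sub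
            line := fun e he e' he' =>
              (hf.st.line e (hf.sub he)).trans (hf.st.line e' (hf.sub he')).symm
            inj := hf.st.inj
            rk := fun e he e' he' _ => hf.st.rk e (hf.sub he) e' he'
            flat := hf.flat
            root := hf.root
            cs := hf.cs }
      hfw := fun e _ => rfl
      hwl := fun i e he => (mem_TF.1 ((h.fam i).sub he)).2
      hloc := fun i e _ e' he' _ => (mem_TF.1 he').2 }
  card := h.card
  irr := h.irr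
  fst := h.fst
  crn := h.crn

/-- the inputs for the 45 degree rectangles -/
theorem fineP45 (h : Fine45) : FineP P45 := by
  intro η hη
  obtain ⟨C, c, K, R1, hC, hc, hK, H⟩ := h η hη
  refine ⟨2, C, c, K, η / 4096, R1, hC, hc, hK, by positivity, ?_⟩
  rintro R hR _ ⟨w, h, O, hO, top, S, hS, p, q, hp, hq, rfl⟩
  refine ⟨le_of_eq Fintype.card_bool, fun R' h1 h2 => ?_⟩
  obtain ⟨Q, hQ⟩ := H R hR w h O hO R' h1 (by linarith) top S hS p q hp hq
  exact ⟨FlJ w h R' top, Q, fineW_of_fine hQ⟩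

theorem hvP45 (h : HV45) : HVP P45 := by
  intro η hη
  obtain ⟨C, R1, H⟩ := h η hη
  refine ⟨C, R1, ?_⟩
  rintro R hR _ ⟨w, h, O, hO, top, S, hS, p, q, hp, hq, rfl⟩
  exact H R hR w h O hO top S hS p q hp hq

/-- union of two classes -/
def orP (P P' : ℝ → ℕ → CaseW → Prop) (η : ℝ) (R : ℕ) (x : CaseW) : Prop := P η R x ∨ P' η R x

theorem fineP_or {P P' : ℝ → ℕ → CaseW → Prop} (h : FineP P) (h' : FineP P') : FineP (orP P P') := by
  intro η hη
  obtain ⟨N, C, c, K, ζ, R1, hC, hc, hK, hζ, H⟩ := h η hη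
  obtain ⟨N', C', c', K', ζ', R1', hC', hc', hK', hζ', H'⟩ := h' η hη
  refine ⟨max N N', max C C', min c c', max K K', min (min ζ ζ') 1, max (max R1 R1') 1,
    lt_max_of_lt_left hC, lt_min hc hc', lt_max_of_lt_left hK, lt_min (lt_min hζ hζ') one_pos, ?_⟩
  intro R hR x hx
  have hRpos : 0 < R := by
    have := (le_max_right (max R1 R1') 1).trans hR
    omega
  have hRr : (0 : ℝ) < R := by exact_mod_cast hRpos
  rcases hx with hx | hx
  · obtain ⟨g1, g2⟩ := H R (by omega) x hx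
    refine ⟨g1.trans (le_max_left _ _), fun R' h1 h2 => ?_⟩
    obtain ⟨FlT, Q, hQ⟩ := g2 R' (by push_cast at h1; omega)
      (h2.trans (mul_le_mul_of_nonneg_right ((min_le_left _ _).trans (min_le_left _ _)) hRr.le))
    refine ⟨FlT, Q, hQ.mono (le_max_left _ _) (min_le_left _ _) (le_max_left _ _) hC.le
      (lt_min hc hc') hRpos (h2.trans ?_)⟩
    calc min (min ζ ζ') 1 * (R : ℝ) ≤ 1 * R := mul_le_mul_of_nonneg_right (min_le_right _ _) hRr.le
      _ = R := one_mul _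
  · obtain ⟨g1, g2⟩ := H' R (by omega) x hx
    refine ⟨g1.trans (le_max_right _ _), fun R' h1 h2 => ?_⟩
    obtain ⟨FlT, Q, hQ⟩ := g2 R' (by push_cast at h1; omega)
      (h2.trans (mul_le_mul_of_nonneg_right ((min_le_left _ _).trans (min_le_right _ _)) hRr.le))
    refine ⟨FlT, Q, hQ.mono (le_max_right _ _) (min_le_right _ _) (le_max_right _ _) hC'.le
      (lt_min hc hc') hRpos (h2.trans ?_)⟩
    calc min (min ζ ζ') 1 * (R : ℝ) ≤ 1 * R := mul_le_mul_of_nonneg_right (min_le_right _ _) hRr.le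
      _ = R := one_mul _

theorem hvP_or {P P' : ℝ → ℕ → CaseW → Prop} (h : HVP P) (h' : HVP P') : HVP (orP P P') := by
  intro η hη
  obtain ⟨C, R1, H⟩ := h η hη
  obtain ⟨C', R1', H'⟩ := h' η hη
  refine ⟨max C C', max R1 R1', ?_⟩
  intro R hR x hx
  have hR0 : 0 ≤ (R : ℝ) ^ (2 / 3 : ℝ) := Real.rpow_nonneg (Nat.cast_nonneg _) _
  rcases hx with hx | hx
  · exact fun ω hω P hP => (H R (by omega) x hx ω hω P hP).trans
      (mul_le_mul_of_nonneg_right (le_max_left _ _) hR0)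
  · exact fun ω hω P hP => (H' R (by omega) x hx ω hω P hP).trans
      (mul_le_mul_of_nonneg_right (le_max_right _ _) hR0)

/-- **Linear response of the 45 degree rectangles at the scale `R`**, for the given response function `G`,
error `E` -/
def LRat (η : ℝ) (R n : ℕ) (G : ℂ → ℂ) (E : ℝ) : Prop :=
  ∀ (w h : ℤ) (O : Out w h), Sc η R O → ∀ (top : Bool) (S : Finset (ℤ × ℤ))
    (hS : S ⊆ RRJ w h top) (p q : ℤ × ℤ), Inn w h (η * R) p → Inn w h (η * R) q → ∀ t : ℝ, |t| ≤ 1 →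
    ∀ d : Dat, d = datJ O (mE η R) (LE η R) top S hS →
    ‖d.tot (LCq p q) (Laq p q)
        (fun i => if i = true then sw (rap n t + (Real.pi / 2 : ℝ)) else sw (rap n t)) -
      d.tot0 (LCq p q) (Laq p q) - (n : ℂ) *
      (G (pt t) * (d.tot (LCq p q) (Laq p q) (w4 false) - d.tot0 (LCq p q) (Laq p q)) +
       G (pt t + (Real.pi / 2 : ℝ)) *
        (d.tot (LCq p q) (Laq p q) (w4 true) - d.tot0 (LCq p q) (Laq p q)))‖ ≤ E

/-- **Linear response for the 45 degree rectangles and the class `P` with one response function.** -/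
theorem lrJ (h45 : Fine45) (hH45 : HV45) : ∃ C c : ℝ, 0 < c ∧
    ∀ P : ℝ → ℕ → CaseW → Prop, FineP P → HVP P → ∀ η η' : ℝ, 0 < η → 0 < η' →
    ∀ ε : ℝ, 0 < ε → ∀ Y : ℝ, ∃ ρ1 : ℝ, 0 < ρ1 ∧ ∀ ρ : ℝ, 0 < ρ →
    ρ < ρ1 → ∃ R0 : ℕ, ∀ R : ℕ, R0 ≤ R → ∃ G : ℂ → ℂ, GHypX C c Y G ∧
    LRat η' R ⌊ρ * R⌋₊ G (ε * ρ * (R : ℝ) ^ (2 / 3 : ℝ)) ∧
    ∀ x : CaseW, P η R x → ∀ (S : Finset x.κ) (z : x.κ → ℂ),
    (∀ w, 0 ≤ (z w).re ∧ (z w).re ≤ Real.pi ∧ |(z w).im| ≤ 1) →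
    ‖x.tot (sz S ⌊ρ * R⌋₊ z) - x.tot0 -
      (⌊ρ * R⌋₊ : ℂ) * ∑ w ∈ S, G (z w) * (x.tot (wS {w}) - x.tot0)‖ ≤
      ε * ρ * (R : ℝ) ^ (2 / 3 : ℝ) := by
  obtain ⟨C, c, hc, H⟩ := lrP
  refine ⟨C, c, hc, fun P hF hH η η' hη hη' ε hε Y => ?_⟩
  obtain ⟨ρ1, hρ1, H⟩ := H (orP (fun _ => P45 η') P) (fineP_or (fun _ _ => fineP45 h45 η' hη') hF)
    (hvP_or (fun _ _ => hvP45 hH45 η' hη') hH) η hη ε hε Y
  refine ⟨ρ1, hρ1, fun ρ hρ hρl => ?_⟩
  obtain ⟨R0, H⟩ := H ρ hρ hρl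
  refine ⟨R0, fun R hR => ?_⟩
  obtain ⟨G, hG, H⟩ := H R hR
  refine ⟨G, hG, ?_, fun x hx => H x (Or.inr hx)⟩
  intro w h O hO top S hS p q hp hq t ht d hd
  have hz : ∀ i : Bool, 0 ≤ (zf t i).re ∧ (zf t i).re ≤ Real.pi ∧ |(zf t i).im| ≤ 1 := fun i =>
    ⟨(U_re (zf_U t i)).1, (U_re (zf_U t i)).2, by rw [zf_im]; exact ht⟩
  have key := H (case45 d p q) (Or.inl ⟨w, h, O, hO, top, S, hS, p, q, hp, hq, by rw [hd]⟩)
    (univ : Finset Bool) (zf t) hz
  set n : ℕ := ⌊ρ * R⌋₊ with hn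
  have e1 : (case45 d p q).tot (sz (univ : Finset Bool) n (zf t)) =
      d.tot (LCq p q) (Laq p q)
        (fun i => if i = true then sw (rap n t + (Real.pi / 2 : ℝ)) else sw (rap n t)) := by
    show d.tot (LCq p q) (Laq p q) (sz (univ : Finset Bool) n (zf t)) = _
    congr 1
    funext i
    unfold sz swn zf rap
    rw [if_pos (mem_univ _)]
    cases i
    · simp only [Bool.false_eq_true, if_false]
    · simp only [if_true]
      congr 1
      ring
  have e2 : ∀ i : Bool, (case45 d p q).tot (wS {i}) = d.tot (LCq p q) (Laq p q) (w4 i) := by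
    intro i
    show d.tot (LCq p q) (Laq p q) (wS {i}) = _
    congr 1
    funext j
    unfold wS w4
    simp only [mem_singleton]
  have e3 : (case45 d p q).tot0 = d.tot0 (LCq p q) (Laq p q) := rfl
  have e4 : ∑ i ∈ (univ : Finset Bool), G (zf t i) * ((case45 d p q).tot (wS {i}) -
      (case45 d p q).tot0) =
      G (pt t) * (d.tot (LCq p q) (Laq p q) (w4 false) - d.tot0 (LCq p q) (Laq p q)) +
       G (pt t + (Real.pi / 2 : ℝ)) *
        (d.tot (LCq p q) (Laq p q) (w4 true) - d.tot0 (LCq p q) (Laq p q)) := by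
    rw [Fintype.sum_bool, e2, e2, e3]
    unfold zf
    simp only [Bool.false_eq_true, if_false, if_true]
    ring
  rw [← e1, ← e4, ← e3]
  exact key

end Pool.Agent.Q1.M6e.Wn
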