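import Mathlib
import Pool.Agent.Q1.M6e.Coord

set_option autoImplicit false
open Finset

/-!
# A rank of the ties of several walls

`rkW` : the walls one after the other, each wall in the order of the first coordinate in its frame.
-/

namespace Pool.Agent.Q1.M6e.Wn

open Pool.Agent.H75.Perc Pool.Agent.H75.TwoArm Pool.Agent.H75.Four Pool.Agent.H49.Perc
open Pool.Agent.H69.Q1 Pool.Agent.H39.Q1 Pool.Agent.H25.Q1.Add
open Pool.Agent.H99.NC Pool.Agent.H60.Q1 Pool.Agent.H20.Q1 Pool.Agent.Q1 Pool.Agent.Q1.M6e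

variable {κ : Type} [Fintype κ] {TT : Finset (ℤ × ℤ)} {wl : ℤ × ℤ → κ} {ε : κ → Bool × Bool}
  {b : ℤ × ℤ → ℤ × ℤ} {e e' : ℤ × ℤ}

/-- number of a wall -/
noncomputable def ix (w : κ) : ℤ := ((Fintype.equivFin κ w : ℕ) : ℤ)

lemma ix_inj {w w' : κ} (h : ix w = ix w') : w = w' := by
  unfold ix at h
  exact (Fintype.equivFin κ).injective (Fin.ext (by exact_mod_cast h))

/-- coordinate of a tie along its wall -/
def cw (wl : ℤ × ℤ → κ) (ε : κ → Bool × Bool) (b : ℤ × ℤ → ℤ × ℤ) (e : ℤ × ℤ) : ℤ := (gm (ε (wl e)) (b e)).1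

/-- a bound of the coordinates -/
def KW (TT : Finset (ℤ × ℤ)) (wl : ℤ × ℤ → κ) (ε : κ → Bool × Bool) (b : ℤ × ℤ → ℤ × ℤ) : ℤ :=
  1 + 2 * ∑ e ∈ TT, |cw wl ε b e|

/-- the rank -/
noncomputable def rkW (TT : Finset (ℤ × ℤ)) (wl : ℤ × ℤ → κ) (ε : κ → Bool × Bool)
    (b : ℤ × ℤ → ℤ × ℤ) (e : ℤ × ℤ) : ℤ := KW TT wl ε b * ix (wl e) + cw wl ε b e

omit [Fintype κ] in
lemma cw_lt (he : e ∈ TT) : 2 * |cw wl ε b e| < KW TT wl ε b := by
  unfold KW
  have := single_le_sum (f := fun e => |cw wl ε b e|) (fun e _ => abs_nonneg _) he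
  omega

lemma rkW_le (h : wl e = wl e') : rkW TT wl ε b e ≤ rkW TT wl ε b e' ↔ cw wl ε b e ≤ cw wl ε b e' := by
  unfold rkW
  rw [h]
  exact add_le_add_iff_left _

/-- ties of one rank are on one wall -/
lemma wl_of_rkW (he : e ∈ TT) (he' : e' ∈ TT) (h : rkW TT wl ε b e = rkW TT wl ε b e') :
    wl e = wl e' := by
  apply ix_inj
  have h1 := cw_lt (wl := wl) (ε := ε) (b := b) he
  have h2 := cw_lt (wl := wl) (ε := ε) (b := b) he'
  set K := KW TT wl ε b
  set x := ix (wl e)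
  set y := ix (wl e')
  set u := cw wl ε b e
  set v := cw wl ε b e'
  have h3 : K * (x - y) = v - u := by
    have : K * x + u = K * y + v := h
    linarith
  have h4 := abs_lt.1 (show |v - u| < K from by
    have := abs_sub v u
    omega)
  rcases lt_trichotomy x y with h5 | h5 | h5
  · have : K * (x - y) ≤ K * (-1) := mul_le_mul_of_nonneg_left (by omega) (by omega)
    omega
  · exact h5
  · have : K * 1 ≤ K * (x - y) := mul_le_mul_of_nonneg_left (by omega) (by omega)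
    omega

/-- **The rank is injective.** -/
theorem rkW_inj (hline : ∀ e ∈ TT, ∀ e' ∈ TT, wl e = wl e' →
      (gm (ε (wl e)) (b e)).1 + (gm (ε (wl e)) (b e)).2 = (gm (ε (wl e)) (b e')).1 + (gm (ε (wl e)) (b e')).2)
    (hinj : ∀ e ∈ TT, ∀ e' ∈ TT, wl e = wl e' → b e = b e' → e = e') :
    ∀ e ∈ TT, ∀ e' ∈ TT, rkW TT wl ε b e = rkW TT wl ε b e' → e = e' := by
  intro e he e' he' h
  have hw := wl_of_rkW he he' h
  have h1 : cw wl ε b e = cw wl ε b e' := by
    have : KW TT wl ε b * ix (wl e) + cw wl ε b e = KW TT wl ε b * ix (wl e') + cw wl ε b e' := h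
    rw [hw] at this
    linarith
  refine hinj e he e' he' hw (gm_inj (ε := ε (wl e)) (Prod.ext ?_ ?_))
  · unfold cw at h1
    rw [← hw] at h1
    exact h1
  · have h2 := hline e he e' he' hw
    unfold cw at h1
    rw [← hw] at h1
    omega

end Pool.Agent.Q1.M6e.Wn
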