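import Mathlib
import Pool.Agent.Q1.M6e.Wn.Fine
import Pool.Agent.Q1.M6e.Wn.Rank
import Pool.Agent.H13.Sp.Mult
import Pool.Agent.H59.W.ViewW

set_option autoImplicit false
open Finset

/-!
# The tied natural windows as data of the assembly

`datA` : the environment `XA O p S` of a window with ties on all walls of both arcs, families = arcs, an
arbitrary system of walls `wl`, `fw`, `ε`, `δ`. `walls_mk` : the field `wal` of `FineW` from the views of the
walls and the flatness of the boxes.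
-/

namespace Pool.Agent.Q1.M6e.Wn

open Pool.Agent.H75.Perc Pool.Agent.H75.TwoArm Pool.Agent.H75.Four Pool.Agent.H49.Perc
open Pool.Agent.H69.Q1 Pool.Agent.H39.Q1 Pool.Agent.H25.Q1.Add
open Pool.Agent.H99.NC Pool.Agent.H60.Q1 Pool.Agent.H20.Q1 Pool.Agent.Q1 Pool.Agent.Q1.M6e
open Pool.Agent.H44.FM.AsmW (Walls TW FlatWall)
open Pool.Agent.H46.Sp (Win)
open Pool.Agent.H74.Win (OutB EN)
open Pool.Agent.H13.Sp (TA FR WA XA fmA bA oA LaA LBA WlA colp)

/-- **The data of the tied natural window `XA O p S`**: `s0` cut of the ring, `L` size of the large box, `m`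
thickness of the layers -/
noncomputable def datA {κ : Type} [Fintype κ] {D : Win} (O : OutB D) (p : Bool) (s0 L m : ℤ)
    (S : Finset (ℤ × ℤ)) (hS : S ⊆ FR D p) (wl : ℤ × ℤ → κ) (fw : κ → ℤ) (ε : κ → Bool × Bool)
    (δ : κ → ℤ × ℤ) : DatW ℤ κ where
  X := XA O p S hS
  W := WA O p S
  Bb := EN D p
  B := LBA D p (m + 1)
  TT := TA D p
  fm := fmA D p s0
  co := colp D
  Wl := WlA D p s0 L S
  La := LaA D p s0 m
  b := bA D p
  o := oA D p
  rk := rkW (TA D p) wl ε (bA D p)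
  wl := wl
  fw := fw
  ε := ε
  δ := δ

section

variable {ι κ : Type} [DecidableEq ι] [Fintype κ] {X : Pool.Agent.Q1.Env}
  {W Bb B TT Cs : Finset (ℤ × ℤ)} {fm : ℤ × ℤ → ι} {co : ι → Bool} {Wl La : ι → Finset (ℤ × ℤ)}
  {b o : ℤ × ℤ → ℤ × ℤ} {wl : ℤ × ℤ → κ} {fw : κ → ι} {ε : κ → Bool × Bool} {δ : κ → ℤ × ℤ}
  {FlT : κ → Finset (ℤ × ℤ)} {x0 : κ → ℤ × ℤ} {N : κ → ℤ} {R : ℤ}

/-- **The field `wal`.** -/
theorem walls_mk [DecidableEq κ]
    (hfww : ∀ w, Pool.Agent.H59.W.FWw TT fm b (La (fw w)) (fw w) (ε w) (TW TT wl w) (x0 w) (N w))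
    (hfw : ∀ e ∈ TT, fm e = fw (wl e)) (hsub : ∀ w, FlT w ⊆ TW TT wl w)
    (hloc : ∀ w, ∀ e ∈ FlT w, ∀ e' ∈ TF TT fm (fw w), inR (b e) R (b e') → wl e' = w)
    (hfl : ∀ w, ∀ e ∈ FlT w, FlatL W Bb TT (TF TT fm (fw w)) (Wl (fw w)) (La (fw w)) b o (co (fw w))
      (ε w) (δ w) (b e) (R + 1))
    (hroot : ∀ w, ∀ e ∈ FlT w, lab X.c0 ∉ bx (co (fw w)) (b e) R)
    (hcs : ∀ w, ∀ e ∈ FlT w, ∀ c ∈ Cs, lab c ∉ bx (co (fw w)) (b e) R) :
    Walls X W Bb TT Cs fm co Wl La b o (rkW TT wl ε b) wl fw ε δ FlT R where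
  hfl := fun w =>
    { sub := (hsub w).trans (hfww w).sub
      line := fun e he e' he' => by
        obtain ⟨t, -, h1⟩ := (hfww w).wall e (hsub w he)
        obtain ⟨t', -, h2⟩ := (hfww w).wall e' (hsub w he')
        rw [h1, h2]
        unfold wp
        ring
      inj := (hfww w).inj
      rk := fun e he e' he' h => by
        have h1 : wl e = w := (Pool.Agent.H44.FM.AsmW.mem_TW.1 (hsub w he)).2
        have h2 : wl e' = w := by
          rcases h with h | h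
          · exact hloc w e he e' he' h
          · exact (Pool.Agent.H44.FM.AsmW.mem_TW.1 (hsub w h)).2
        rw [rkW_le (h1.trans h2.symm)]
        unfold cw
        rw [h1, h2]
      flat := hfl w
      root := hroot w
      cs := hcs w }
  hfw := hfw
  hwl := fun w e he => (Pool.Agent.H44.FM.AsmW.mem_TW.1 (hsub w he)).2
  hloc := hloc

/-- the rank is injective -/
theorem rk_inj_mk [DecidableEq κ]
    (hfww : ∀ w, Pool.Agent.H59.W.FWw TT fm b (La (fw w)) (fw w) (ε w) (TW TT wl w) (x0 w) (N w))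
    (hfw : ∀ e ∈ TT, fm e = fw (wl e)) :
    ∀ e ∈ TT, ∀ e' ∈ TT, rkW TT wl ε b e = rkW TT wl ε b e' → e = e' := by
  refine rkW_inj (fun e he e' he' h => ?_) (fun e he e' he' h hb => ?_)
  · obtain ⟨t, -, h1⟩ := (hfww (wl e)).wall e (Pool.Agent.H44.FM.AsmW.mem_TW.2 ⟨he, rfl⟩)
    obtain ⟨t', -, h2⟩ := (hfww (wl e)).wall e' (Pool.Agent.H44.FM.AsmW.mem_TW.2 ⟨he', h.symm⟩)
    rw [h1, h2]
    unfold wp
    ring
  · exact (hfww (wl e)).inj e (mem_TF.2 ⟨he, hfw e he⟩) e'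
      (mem_TF.2 ⟨he', by rw [hfw e' he', h]⟩) hb

end

end Pool.Agent.Q1.M6e.Wn
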