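import Mathlib
import Pool.Agent.Q1.M6e.Wn.P45
import Pool.Agent.H31.Sp.Dat
import Pool.Agent.H40.Sp.MCor
import Pool.Agent.H20.Sp.WinC
import Pool.Agent.Q1.M6e.ApWin

set_option autoImplicit false
open Finset

/-!
# The tied natural windows as a class of tied environments

`mW`, `LW` : thickness of the layers and size of the large box. `ScW` : the hypotheses on the window, the
outside, the frozen state and the pair of linked points at the scale `R`. `caseW` : the case, `PW` : the class.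
-/

namespace Pool.Agent.Q1.M6e.Wn

open Pool.Agent.Q1 Pool.Agent.Q1.M6e
open Pool.Agent.H46.Sp (Win)
open Pool.Agent.H74.Win (OutB fillc)
open Pool.Agent.H13.Sp (FR colp)
open Pool.Agent.H31.Sp (CoarseC Kp EdF mem_EdF Ed CQ datD)
open Pool.Agent.H20.Sp (OutOK Ports)
open Pool.Agent.H40.Sp (NatS)

/-- thickness of the layers -/
noncomputable def mW (η : ℝ) (R : ℕ) : ℤ := ⌊η * R / 64⌋

/-- half size of the large box -/
noncomputable def LW (η : ℝ) (R : ℕ) : ℤ := ⌊η * R / 4⌋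

/-- **A tied natural window at the scale `R`**: cells of side `n`, outside `O`, world `p`, cut `s0` of the
ring, frozen state `S`, linked points `u`, `v` -/
structure ScW (η : ℝ) (R : ℕ) {D : Win} (O : OutB D) (n H : ℤ) (A B : ℤ → ℤ) (YP YQ : ℤ)
    (CL CR : ℤ → Bool) (p : Bool) (s0 : ℤ) (S : Finset (ℤ × ℤ)) (u v : ℤ × ℤ) : Prop where
  co : CoarseC D n H A B YP YQ CL CR
  n1 : η * R ≤ n
  h2 : (D.h : ℝ) ≤ R / η
  w2 : ((D.b D.yQ - D.a (D.yP - 1) : ℤ) : ℝ) ≤ R / η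
  out : OutOK O (LW η R)
  cut : colp D (s0 - 1) ≠ colp D s0
  sub : S ⊆ FR D p
  nat : NatS D p S
  lk : Lk (Pool.Agent.H74.Win.InP D p) (η * R) u v

/-- **the tied natural window as a case** (the same as `caseD` of helper44, definitionally) -/
noncomputable def caseW {D : Win} (O : OutB D) (n H : ℤ) (A B : ℤ → ℤ) (p : Bool) (s0 L m : ℤ)
    (S : Finset (ℤ × ℤ)) (hS : S ⊆ FR D p) (w0 : Kp H A B) (u v : ℤ × ℤ) : CaseW where
  ι := ℤ
  κ := Kp H A B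
  d := datD O n H A B p s0 L m S hS w0
  Cs := LC u.1 u.2 v.1 v.2
  a := La u.1 u.2 v.1 v.2

/-- **The class of the tied natural windows.** -/
def PW (η : ℝ) (R : ℕ) (x : CaseW) : Prop :=
  ∃ (D : Win) (O : OutB D) (n H : ℤ) (A B : ℤ → ℤ) (YP YQ : ℤ) (CL CR : ℤ → Bool) (p : Bool) (s0 : ℤ)
    (S : Finset (ℤ × ℤ)) (u v : ℤ × ℤ) (h : ScW η R O n H A B YP YQ CL CR p s0 S u v) (w0 : Kp H A B),
    x = caseW O n H A B p s0 (LW η R) (mW η R) S h.sub w0 u v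

section

variable {η : ℝ} {R : ℕ} {D : Win} {O : OutB D} {n H : ℤ} {A B : ℤ → ℤ} {YP YQ : ℤ}
  {CL CR : ℤ → Bool} {p : Bool} {s0 : ℤ} {S : Finset (ℤ × ℤ)} {u v : ℤ × ℤ}

namespace ScW

variable (h : ScW η R O n H A B YP YQ CL CR p s0 S u v)

include h

/-- the number of rows of cells -/
lemma H_le (hη : 0 < η) (hR : 1 ≤ R) : (H : ℝ) ≤ 1 / η ^ 2 := by
  have hRr : (0 : ℝ) < R := by exact_mod_cast hR
  have hH : (0 : ℝ) < H := by exact_mod_cast h.co.HH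
  have h1 : ((n * H : ℤ) : ℝ) ≤ R / η := by
    rw [← h.co.hh]; exact h.h2
  push_cast at h1
  have h2 : η * R * H ≤ R / η := (mul_le_mul_of_nonneg_right h.n1 hH.le).trans h1
  rw [le_div_iff₀ hη] at h2
  rw [le_div_iff₀ (by positivity)]
  have h3 : (H * η ^ 2) * (R : ℝ) ≤ 1 * R := by nlinarith
  exact le_of_mul_le_mul_right h3 hRr

/-- the number of cells of a row -/
lemma AB_le (hη : 0 < η) (hR : 1 ≤ R) {Y : ℤ} (h0 : 0 ≤ Y) (h1 : Y < H) :
    ((B Y - A Y : ℤ) : ℝ) ≤ 1 / η ^ 2 := by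
  have hRr : (0 : ℝ) < R := by exact_mod_cast hR
  have hn := h.co.toCoarse.pos
  have hAB := h.co.AB Y h0 h1
  have y0 : 0 ≤ n * Y := mul_nonneg hn.le h0
  have y1 : n * Y < D.h := by
    rw [h.co.hh]; exact mul_lt_mul_of_pos_left h1 hn
  have g1 := (h.co.toCoarse.a_le y0 y1).2
  have g2 := (h.co.toCoarse.le_b y0 y1).1
  rw [Int.mul_ediv_cancel_left _ hn.ne'] at g1 g2
  have g3 := Pool.Agent.H46.Sp.Win.a_min (D := D) y0 y1
  have g4 := Pool.Agent.H46.Sp.Win.b_max (D := D) y0 y1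
  have h2 : ((n * (B Y - A Y) : ℤ) : ℝ) ≤ R / η := by
    refine le_trans ?_ h.w2
    exact_mod_cast (by rw [mul_sub]; omega : n * (B Y - A Y) ≤ D.b D.yQ - D.a (D.yP - 1))
  push_cast at h2 ⊢
  have hp : (0 : ℝ) < (B Y : ℝ) - A Y := by
    have : (A Y : ℝ) < B Y := by exact_mod_cast hAB
    linarith
  have h3 : η * R * ((B Y : ℝ) - A Y) ≤ R / η := (mul_le_mul_of_nonneg_right h.n1 hp.le).trans h2
  rw [le_div_iff₀ hη] at h3
  rw [le_div_iff₀ (by positivity)]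
  have h4 : (((B Y : ℝ) - A Y) * η ^ 2) * (R : ℝ) ≤ 1 * R := by nlinarith
  exact le_of_mul_le_mul_right h4 hRr

/-- **The number of walls.** -/
lemma card_le (hη : 0 < η) (hR : 1 ≤ R) :
    Fintype.card (Kp H A B) ≤ 8 * (⌊1 / η ^ 2⌋₊ * (⌊1 / η ^ 2⌋₊ + 1)) := by
  classical
  have hH : H.toNat ≤ ⌊1 / η ^ 2⌋₊ := by
    refine Nat.le_floor ?_
    have h1 := h.H_le hη hR
    have h2 : ((H.toNat : ℤ) : ℝ) = (H : ℝ) := by
      exact_mod_cast Int.toNat_of_nonneg h.co.HH.le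
    have h3 : (H.toNat : ℝ) = ((H.toNat : ℤ) : ℝ) := by push_cast; rfl
    rw [h3, h2]; exact h1
  rw [Fintype.card_coe]
  have hsub : EdF H A B ⊆ (univ : Finset Pool.Agent.H42.Sp.Sd) ×ˢ
      ((Ico 0 H).biUnion fun Y => Icc (A Y) (B Y) ×ˢ Icc Y (Y + 1)) := by
    unfold EdF
    exact filter_subset _ _
  refine (card_le_card hsub).trans ?_
  rw [card_product]
  have c4 : (univ : Finset Pool.Agent.H42.Sp.Sd).card = 4 := rfl
  rw [c4]
  have hb : ((Ico 0 H).biUnion fun Y => Icc (A Y) (B Y) ×ˢ Icc Y (Y + 1)).card ≤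
      (Ico 0 H).card * (2 * (⌊1 / η ^ 2⌋₊ + 1)) := by
    refine card_biUnion_le_card_mul _ _ _ fun Y hY => ?_
    rw [mem_Ico] at hY
    rw [card_product, Int.card_Icc, Int.card_Icc, show (Y + 1 + 1 - Y).toNat = 2 by omega]
    have h1 := h.AB_le hη hR hY.1 hY.2
    have h2 : (B Y - A Y).toNat ≤ ⌊1 / η ^ 2⌋₊ := by
      refine Nat.le_floor ?_
      have h3 := h.co.AB Y hY.1 hY.2
      have h4 : (((B Y - A Y).toNat : ℤ) : ℝ) = ((B Y - A Y : ℤ) : ℝ) := by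
        exact_mod_cast Int.toNat_of_nonneg (by omega : 0 ≤ B Y - A Y)
      have h5 : ((B Y - A Y).toNat : ℝ) = (((B Y - A Y).toNat : ℤ) : ℝ) := by push_cast; rfl
      rw [h5, h4]; exact h1
    have h6 : (B Y + 1 - A Y).toNat ≤ ⌊1 / η ^ 2⌋₊ + 1 := by omega
    nlinarith
  rw [Int.card_Ico, sub_zero] at hb
  calc 4 * _ ≤ 4 * (H.toNat * (2 * (⌊1 / η ^ 2⌋₊ + 1))) := Nat.mul_le_mul_left _ hb
    _ ≤ 4 * (⌊1 / η ^ 2⌋₊ * (2 * (⌊1 / η ^ 2⌋₊ + 1))) :=
      Nat.mul_le_mul_left _ (Nat.mul_le_mul_right _ hH)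
    _ = 8 * (⌊1 / η ^ 2⌋₊ * (⌊1 / η ^ 2⌋₊ + 1)) := by ring

lemma m_le_n (hη : 0 < η) : 64 * mW η R ≤ n := by
  have h1 : (mW η R : ℝ) ≤ η * R / 64 := Int.floor_le _
  have h2 : ((64 * mW η R : ℤ) : ℝ) ≤ (n : ℝ) := by
    push_cast
    linarith [h.n1]
  exact_mod_cast h2

lemma L_le_n (hη : 0 < η) : 4 * LW η R ≤ n := by
  have h1 : (LW η R : ℝ) ≤ η * R / 4 := Int.floor_le _
  have h2 : ((4 * LW η R : ℤ) : ℝ) ≤ (n : ℝ) := by
    push_cast
    linarith [h.n1]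
  exact_mod_cast h2

end ScW

/-- lower bound of the thickness -/
lemma le_mW {k : ℤ} (h : 64 * (k : ℝ) ≤ η * R) : k ≤ mW η R := by
  unfold mW
  rw [Int.le_floor]
  linarith

/-- smaller large box -/
lemma outOK_mono {N N' : ℤ} (h : OutOK O N) (hN : N' ≤ N) : OutOK O N' where
  free := fun x y hi => h.free x y (by
    unfold Pool.Agent.H13.Sp.InL at hi ⊢; omega)
  port := fun x y hi => h.port x y (by
    unfold Pool.Agent.H13.Sp.InL at hi ⊢; omega)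
  root := fun g hg => by
    have := h.root g hg
    unfold Pool.Agent.H13.R45.OutF at this ⊢
    omega

lemma le_LW {k : ℤ} (h : 4 * (k : ℝ) ≤ η * R) : k ≤ LW η R := by
  unfold LW
  rw [Int.le_floor]
  linarith

lemma mW_le : (mW η R : ℝ) ≤ η * R / 64 := Int.floor_le _

lemma LW_le : (LW η R : ℝ) ≤ η * R / 4 := Int.floor_le _

end

end Pool.Agent.Q1.M6e.Wn
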