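import Mathlib
import Pool.Agent.Q1.M6e.Wn.PW
import Pool.Agent.H44.FM.Wi6

set_option autoImplicit false
open Finset

/-!
# A sequence of windows of one polyomino is in the class of the tied natural windows
-/

namespace Pool.Agent.Q1.M6e.Wn

open Filter
open Pool.Agent.Q1 Pool.Agent.Q1.M6e
open Pool.Agent.H46.Sp (Win)
open Pool.Agent.H74.Win (OutB)
open Pool.Agent.H13.Sp (FR colp)
open Pool.Agent.H31.Sp (CoarseC Kp)
open Pool.Agent.H20.Sp (OutOK)
open Pool.Agent.H40.Sp (NatS)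
open Pool.Agent.H44.FM.Wi (SeqC MemW caseD)

section

variable {D : Win} {n H : ℤ} {A B : ℤ → ℤ} {YP YQ : ℤ} {CL CR : ℤ → Bool}

/-- the width of the window in cells -/
lemma width_le (C : CoarseC D n H A B YP YQ CL CR) :
    D.b D.yQ - D.a (D.yP - 1) ≤ n * (|B YQ - A (YP - 1)| + 2) := by
  have hn := C.toCoarse.pos
  have hn8 := C.hn
  have hQ0 := D.Q0
  have hQ1 := D.Q1
  have hP0 := D.P0
  have hP1 := D.P1
  have g1 := (C.toCoarse.le_b hQ0 hQ1).2
  have g2 := (C.toCoarse.a_le (y := D.yP - 1) (by omega) (by omega)).1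
  have e1 : D.yQ / n = YQ := by rw [C.yQ, Int.mul_ediv_cancel_left _ hn.ne']
  have e2 : (D.yP - 1) / n = YP - 1 := by
    rw [C.yP, show n * YP - 1 = (n - 1) + n * (YP - 1) by ring,
      Int.add_mul_ediv_left _ _ hn.ne', Int.ediv_eq_zero_of_lt (by omega) (by omega), zero_add]
  rw [e1] at g1
  rw [e2] at g2
  have h1 := le_abs_self (B YQ - A (YP - 1))
  have h2 : n * (B YQ - A (YP - 1)) ≤ n * |B YQ - A (YP - 1)| := mul_le_mul_of_nonneg_left h1 hn.le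
  rw [mul_add]
  have h3 : n * (B YQ - A (YP - 1)) = n * B YQ - n * A (YP - 1) := by ring
  omega

/-- the hypotheses `ScW` -/
theorem scW_of {N : ℕ} {O : OutB D} {p : Bool} {s0 : ℤ} {S : Finset (ℤ × ℤ)} {u v : ℤ × ℤ}
    {η η' c : ℝ} (C : CoarseC D N H A B YP YQ CL CR) (hη' : 0 < η') (h1 : η' ≤ 1) (h2 : η' ≤ η)
    (h3 : η' * H ≤ 1) (h4 : η' * (|B YQ - A (YP - 1)| + 2 : ℤ) ≤ 1) (h5 : η' ≤ 4 * c)
    (hO : OutOK O ⌊c * (N : ℝ)⌋) (hcut : colp D (s0 - 1) ≠ colp D s0) (hS : S ⊆ FR D p)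
    (hN : NatS D p S) (hl : Lk (Pool.Agent.H74.Win.InP D p) (η * (N : ℝ)) u v) :
    ScW η' N O N H A B YP YQ CL CR p s0 S u v where
  co := C
  n1 := by
    have : (0 : ℝ) ≤ N := Nat.cast_nonneg _
    push_cast
    nlinarith
  h2 := by
    have : (0 : ℝ) ≤ N := Nat.cast_nonneg _
    rw [le_div_iff₀ hη', C.hh]
    push_cast
    nlinarith
  w2 := by
    have h0 : (0 : ℝ) ≤ N := Nat.cast_nonneg _
    have k1 : ((D.b D.yQ - D.a (D.yP - 1) : ℤ) : ℝ) ≤ ((N * (|B YQ - A (YP - 1)| + 2) : ℤ) : ℝ) := by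
      exact_mod_cast width_le C
    rw [le_div_iff₀ hη']
    have k2 : ((N * (|B YQ - A (YP - 1)| + 2) : ℤ) : ℝ) =
        (N : ℝ) * (|B YQ - A (YP - 1)| + 2 : ℤ) := by push_cast; ring
    rw [k2] at k1
    calc ((D.b D.yQ - D.a (D.yP - 1) : ℤ) : ℝ) * η' ≤
        ((N : ℝ) * (|B YQ - A (YP - 1)| + 2 : ℤ)) * η' := mul_le_mul_of_nonneg_right k1 hη'.le
      _ = N * (η' * (|B YQ - A (YP - 1)| + 2 : ℤ)) := by ring
      _ ≤ N * 1 := mul_le_mul_of_nonneg_left h4 h0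
      _ = N := mul_one _
  out := outOK_mono hO (by
    have h0 : (0 : ℝ) ≤ N := Nat.cast_nonneg _
    unfold LW
    exact Int.floor_le_floor (by nlinarith))
  cut := hcut
  sub := hS
  nat := hN
  lk := hl.mono (by
    have h0 : (0 : ℝ) ≤ N := Nat.cast_nonneg _
    nlinarith)

end

/-- **The cases of a sequence of windows of one polyomino are in the class `PW`.** -/
theorem memW_PW {R : ℕ → ℕ} {F : Filter ℕ} {D : ℕ → Win} {H : ℤ} {A B : ℤ → ℤ} {YP YQ : ℤ}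
    {s0 : ℕ → ℤ} {O : ∀ j, OutB (D j)} (hC : SeqC R F D H A B YP YQ s0)
    (hO : ∃ c : ℝ, 0 < c ∧ ∀ᶠ j in F, OutOK (O j) ⌊c * (R j : ℝ)⌋) (w0 : Kp H A B) :
    MemW PW R F O s0 w0 := by
  intro η hη
  obtain ⟨c, hc, hO⟩ := hO
  set W : ℤ := |B YQ - A (YP - 1)| + 2 with hW
  have hW0 : (0 : ℝ) < W := by
    have : (0 : ℤ) < W := by have := abs_nonneg (B YQ - A (YP - 1)); omega
    exact_mod_cast this
  have hH0 : (0 : ℝ) < |(H : ℝ)| + 1 := by positivity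
  refine ⟨min (min 1 η) (min (min (1 / (|(H : ℝ)| + 1)) (1 / W)) (4 * c)),
    lt_min (lt_min one_pos hη) (lt_min (lt_min (by positivity) (by positivity)) (by positivity)), ?_⟩
  set η' : ℝ := min (min 1 η) (min (min (1 / (|(H : ℝ)| + 1)) (1 / W)) (4 * c)) with hη'
  have hη'0 : 0 < η' :=
    lt_min (lt_min one_pos hη) (lt_min (lt_min (by positivity) (by positivity)) (by positivity))
  have e1 : η' ≤ 1 := (min_le_left _ _).trans (min_le_left _ _)
  have e2 : η' ≤ η := (min_le_left _ _).trans (min_le_right _ _)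
  have e3 : η' ≤ 1 / (|(H : ℝ)| + 1) :=
    (min_le_right _ _).trans ((min_le_left _ _).trans (min_le_left _ _))
  have e4 : η' ≤ 1 / W := (min_le_right _ _).trans ((min_le_left _ _).trans (min_le_right _ _))
  have e5 : η' ≤ 4 * c := (min_le_right _ _).trans (min_le_right _ _)
  have f3 : η' * H ≤ 1 := by
    rw [le_div_iff₀ hH0] at e3
    have := le_abs_self (H : ℝ)
    nlinarith
  have f4 : η' * W ≤ 1 := by rwa [le_div_iff₀ hW0] at e4
  filter_upwards [hC.co, hC.cut, hO] with j a1 a2 a3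
  obtain ⟨CL, CR, a1⟩ := a1
  refine ⟨LW η' (R j), mW η' (R j), fun p a b hl S hS hN => ?_⟩
  exact ⟨D j, O j, R j, H, A, B, YP, YQ, CL, CR, p, s0 j, S, a, b,
    scW_of a1 hη'0 e1 e2 f3 f4 e5 a3 a2 hS hN hl, w0, rfl⟩

end Pool.Agent.Q1.M6e.Wn
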